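import Pool.Agent.Lib.MP_6d476a_gt.Light

set_option autoImplicit false

open Set Filter Topology Function Pool.Agent.Lib.MP_6d476a_gt.Light

namespace Pool.Agent.Results.MP_6d476a_gt.LightMaps

/-- A separable compact set of first Baire class functions on the Baire space is homeomorphic to a
compact set of scatteredly continuous functions on the Baire space if and only if it has a
continuous map with totally disconnected fibres into the scatteredly continuous functions. -/
theorem result (S : Set ((ℕ → ℕ) → ℝ)) (hS : IsCompact S)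
    (hB : ∀ f ∈ S, ∃ u : ℕ → (ℕ → ℕ) → ℝ, (∀ n, Continuous (u n)) ∧
      ∀ x, Filter.Tendsto (fun n => u n x) Filter.atTop (nhds (f x)))
    (hsep : TopologicalSpace.SeparableSpace S) :
    (∃ T : Set ((ℕ → ℕ) → ℝ), IsCompact T ∧
      (∀ g ∈ T, ∀ A : Set (ℕ → ℕ), A.Nonempty → ∃ a ∈ A, ContinuousWithinAt g A a) ∧
      Nonempty (S ≃ₜ T)) ↔
    ∃ π : S → (ℕ → ℕ) → ℝ, Continuous π ∧
      (∀ f : S, ∀ A : Set (ℕ → ℕ), A.Nonempty → ∃ a ∈ A, ContinuousWithinAt (π f) A a) ∧
      ∀ g : (ℕ → ℕ) → ℝ, IsTotallyDisconnected (π ⁻¹' {g}) := by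
  constructor
  · rintro ⟨T, -, hT, ⟨e⟩⟩
    refine ⟨fun f => (e f).1, continuous_subtype_val.comp e.continuous,
      fun f => hT _ (e f).2, fun g t ht _ a ha b hb => e.injective (Subtype.ext ?_)⟩
    exact (ht ha).trans (ht hb).symm
  rintro ⟨π, hπ, hsc, hfib⟩
  have : CompactSpace S := isCompact_iff_compactSpace.1 hS
  choose u hu hut using fun f : S => hB f.1 f.2
  have hwd : ∀ f : S, WD (π f) := fun f => wd_of_sc (hsc f)
  obtain ⟨D, hDc, hDd⟩ := TopologicalSpace.exists_countable_dense S
  let h : S → Code × Code → ℝ := fun f y => 4 * ev f.1 y.2 - 2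
  let r : S → Code × Code → ℝ := fun f y => ev (π f) y.1
  have hcl : ∀ y, Continuous fun f => h f y := fun y =>
    (continuous_const.mul ((continuous_ev_left y.2).comp continuous_subtype_val)).sub
      continuous_const
  have rcl : ∀ y, Continuous fun f => r f y := fun y => (continuous_ev_left y.1).comp hπ
  have rwd : ∀ f, WD (r f) := fun f => (wd_ev (hwd f)).comp continuous_fst
  have hvc : ∀ (f : S) n, Continuous fun y : Code × Code => 4 * ev (u f n) y.2 - 2 := fun f n =>
    (continuous_const.mul ((continuous_ev (hu f n)).comp continuous_snd)).sub continuous_const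
  have hvt : ∀ (f : S) (y : Code × Code),
      Tendsto (fun n => 4 * ev (u f n) y.2 - 2) atTop (𝓝 (h f y)) := fun f y =>
    ((((continuous_ev_left y.2).tendsto _).comp (tendsto_pi_nhds.2 (hut f))).const_mul 4).sub_const 2
  let Y : Set (Code × Code) := {y | ∀ f : S, r f y = 0 ∨ 1 ≤ |h f y|}
  have hY : Y = ⋂ f ∈ D, {y | r f y = 0} ∪ {y | 1 ≤ |h f y|} := by
    refine Subset.antisymm (fun y hy => mem_iInter₂.2 fun f _ => hy f) fun y hy f => ?_
    have hc : IsClosed ({f : S | r f y = 0} ∪ {f : S | 1 ≤ |h f y|}) :=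
      (isClosed_eq (rcl y) continuous_const).union (isClosed_le continuous_const (hcl y).abs)
    exact hc.closure_subset_iff.2 (fun d hd => mem_iInter₂.1 hy d hd) (hDd f)
  obtain ⟨p, hp, hpY⟩ : ∃ p : (ℕ → ℕ) → Code × Code, Continuous p ∧ range p = Y := by
    have : PolishSpace C(ℕ → EReal, ℝ) := inferInstance
    have : PolishSpace ((ℕ → ℕ → ℕ) × C(ℕ → EReal, ℝ)) := inferInstance
    have : PolishSpace Code := inferInstance
    have : PolishSpace (Code × Code) := inferInstance
    let _ : MeasurableSpace (Code × Code) := borel _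
    have : BorelSpace (Code × Code) := ⟨rfl⟩
    have hm : MeasurableSet Y := by
      rw [hY]
      refine MeasurableSet.biInter hDc fun f _ => MeasurableSet.union ?_ ?_
      · exact (rwd f).measurable (measurableSet_singleton 0)
      · have : Measurable (h f) := measurable_of_tendsto_metrizable
          (fun n => (hvc f n).measurable) (tendsto_pi_nhds.2 (hvt f))
        exact measurableSet_le measurable_const this.abs
    have ha := hm.analyticSet
    rw [MeasureTheory.AnalyticSet] at ha
    refine ha.resolve_left (Nonempty.ne_empty ⟨((0, 0, 0), (0, 0, 0)), fun f => Or.inl rfl⟩)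
  let G : S → (ℕ → ℕ) → ℝ := fun f n => r f (p n) * clamp (h f (p n))
  have hG : Continuous G :=
    continuous_pi fun n => (rcl _).mul (continuous_clamp.comp (hcl _))
  have hinj : Injective G := by
    intro f f' hff
    by_contra hne
    have key : ∀ y ∈ Y, r f y * clamp (h f y) = r f' y * clamp (h f' y) := by
      rw [← hpY]
      rintro _ ⟨n, rfl⟩
      exact congrFun hff n
    by_cases hpi : π f = π f'
    · have hF : IsClosed (π ⁻¹' {π f}) := isClosed_singleton.preimage hπ
      have : CompactSpace (π ⁻¹' {π f}) := isCompact_iff_compactSpace.1 hF.isCompact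
      have : TotallyDisconnectedSpace (π ⁻¹' {π f}) :=
        totallyDisconnectedSpace_subtype_iff.2 (hfib _)
      have hne' : (⟨f, rfl⟩ : π ⁻¹' {π f}) ≠ ⟨f', hpi.symm⟩ :=
        fun e => hne (congrArg Subtype.val e)
      obtain ⟨U, hU, hfU, hf'U⟩ := exists_isClopen_of_totally_separated hne'
      have hv : Continuous fun x : π ⁻¹' {π f} => x.1.1 :=
        continuous_subtype_val.comp continuous_subtype_val
      obtain ⟨y2, h0, h1⟩ := exists_code (hU.isClosed.isCompact.image hv)
        (hU.compl.isClosed.isCompact.image hv) (by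
          refine disjoint_left.2 ?_
          rintro _ ⟨a, ha, rfl⟩ ⟨b, hb, e⟩
          exact hb ((Subtype.ext (Subtype.ext e) : b = a) ▸ ha))
      have hC : IsClosed {g : S | |4 * ev g.1 y2 - 2| ≤ 1} :=
        isClosed_le (hcl (y2, y2)).abs continuous_const
      obtain ⟨y1, k0, k1⟩ := exists_code (hC.isCompact.image hπ) (isCompact_singleton (x := π f))
        (by
          refine disjoint_left.2 ?_
          rintro _ ⟨a, ha, rfl⟩ e
          have ha' : |4 * ev a.1 y2 - 2| ≤ 1 := ha
          by_cases hx : (⟨a, e⟩ : π ⁻¹' {π f}) ∈ U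
          · rw [h0 a.1 ⟨_, hx, rfl⟩] at ha'
            norm_num at ha'
          · rw [h1 a.1 ⟨_, hx, rfl⟩] at ha'
            norm_num at ha')
      have hy : (y1, y2) ∈ Y := by
        intro g
        by_cases hg : |4 * ev g.1 y2 - 2| ≤ 1
        · exact Or.inl (k0 _ ⟨g, hg, rfl⟩)
        · exact Or.inr (not_le.1 hg).le
      have := key _ hy
      simp only [r, h] at this
      rw [← hpi, k1 _ rfl, h0 f.1 ⟨_, hfU, rfl⟩, h1 f'.1 ⟨_, hf'U, rfl⟩] at this
      norm_num [clamp] at this
    · obtain ⟨y1, k0, k1⟩ := exists_code (isCompact_singleton (x := π f))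
        (isCompact_singleton (x := π f')) (disjoint_singleton.2 hpi)
      have e1 : ∀ g : S, h g (y1, (0, 0, 1)) = 2 := by
        intro g
        simp only [h, ev, ContinuousMap.one_apply]
        norm_num
      have hy : (y1, ((0, 0, 1) : Code)) ∈ Y := fun g => Or.inr (by rw [e1]; norm_num)
      have := key _ hy
      rw [e1, e1] at this
      simp only [r] at this
      rw [k0 _ rfl, k1 _ rfl] at this
      norm_num [clamp] at this
  refine ⟨range G, isCompact_range hG, ?_, ⟨(hG.isClosedEmbedding hinj).isEmbedding.toHomeomorph⟩⟩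
  rintro _ ⟨f, rfl⟩
  refine WD.sc fun A hA => ?_
  obtain ⟨U, hU, hne, hc⟩ := ((rwd f).comp hp) A hA
  by_cases hz : ∀ a ∈ U ∩ A, r f (p a) = 0
  · refine ⟨U, hU, hne, (continuousOn_const (c := 0)).congr fun a ha => ?_⟩
    simp only [G, hz a ha, zero_mul]
  · push Not at hz
    obtain ⟨a, ha, hra⟩ := hz
    obtain ⟨V, hV, haV, hVr⟩ := mem_nhdsWithin.1 ((hc a ha) (isOpen_ne.mem_nhds hra))
    let _ : MetricSpace (ℕ → ℕ) := PiNat.metricSpaceNatNat
    obtain ⟨W, hW, hne', hc'⟩ := clamp_baire (Z := ℕ → ℕ) (h := fun n => h f (p n))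
      (fun n => (hvc f n).comp hp) (fun n => hvt f (p n)) (A := V ∩ (U ∩ A)) ⟨a, haV, ha⟩
      fun b hb => ((hpY ▸ mem_range_self b : p b ∈ Y) f).resolve_left (hVr hb)
    refine ⟨W ∩ (V ∩ U), hW.inter (hV.inter hU), by simpa only [inter_assoc] using hne', ?_⟩
    simp only [inter_assoc]
    exact (hc.mono fun b hb => hb.2.2).mul hc'

end Pool.Agent.Results.MP_6d476a_gt.LightMaps
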