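import Pool.Agent.Lib.MP_6d476a_gt.Baire

set_option autoImplicit false

open Set Filter Topology Function Pool.Agent.Lib.MP_6d476a_gt

namespace Pool.Agent.Results.MP_6d476a_gt.NoEmbedding

/-- There is a compact set of first Baire class functions on the Baire space that is homeomorphic
to no set of scatteredly continuous functions on any separable metrizable space. -/
theorem result :
    ∃ S : Set ((ℕ → ℕ) → ℝ), IsCompact S ∧
      (∀ f ∈ S, ∃ u : ℕ → (ℕ → ℕ) → ℝ, (∀ n, Continuous (u n)) ∧
          ∀ x, Filter.Tendsto (fun n => u n x) Filter.atTop (nhds (f x))) ∧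
      ∀ (Y : Type) [TopologicalSpace Y] [TopologicalSpace.MetrizableSpace Y]
        [TopologicalSpace.SeparableSpace Y] (T : Set (Y → ℝ)),
        (∀ g ∈ T, ∀ A : Set Y, A.Nonempty → ∃ a ∈ A, ContinuousWithinAt g A a) →
        IsEmpty (S ≃ₜ T) := by
  classical
  obtain ⟨ι, hι1, hι2⟩ := exists_injection
  set Ψ : (ℝ → ℝ) → ((ℕ → ℕ) → ℝ) := fun f => f ∘ ι with hΨ
  have hΨc : Continuous Ψ := continuous_pi fun x => continuous_apply (ι x)
  refine ⟨Ψ '' Helly, isCompact_Helly.image hΨc, ?_, ?_⟩
  · rintro _ ⟨f, hf, rfl⟩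
    refine baire_one_of_countable ?_
    refine (hf.1.countable_not_continuousAt.preimage_of_injOn (f := ι) hι2.injOn).mono ?_
    intro x hx hcon
    exact hx (hcon.comp hι1.continuousAt)
  · intro Y _ _ _ T hT
    refine ⟨fun e => ?_⟩
    set φ : Y → (ℝ → ℝ) → ℝ := fun z f =>
      if h : f ∈ Helly then (e ⟨Ψ f, mem_image_of_mem Ψ h⟩).1 z else 0 with hφdef
    have hφ : ∀ z, ContinuousOn (φ z) Helly := by
      intro z
      rw [continuousOn_iff_continuous_domRestrict]
      have : Helly.domRestrict (φ z) =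
          fun f : Helly => (e ⟨Ψ f.1, mem_image_of_mem Ψ f.2⟩).1 z := by
        funext f
        simp only [domRestrict_apply, hφdef, dif_pos f.2]
      rw [this]
      exact (continuous_apply z).comp (continuous_subtype_val.comp (e.continuous.comp
        ((hΨc.comp continuous_subtype_val).subtype_mk _)))
    have hL : ¬ (range ι).Countable := by
      intro hcon
      have h1 : (univ : Set (ℕ → ℕ)).Countable := by
        have := hcon.preimage_of_injOn (f := ι) hι2.injOn
        rwa [preimage_range] at this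
      have h2 : Uncountable (ℕ → ℕ) := by
        obtain ⟨π, -, hπ⟩ := PolishSpace.exists_nat_nat_continuous_surjective ℝ
        exact hπ.uncountable
      exact Set.not_countable_univ h1
    have h0 : (0 : ℝ → ℝ) ∈ Helly := ⟨monotone_const, fun _ => ⟨le_rfl, zero_le_one⟩⟩
    have hsep : ∀ x ∈ range ι, ∃ z, φ z (bump 0 x 1) ≠ φ z (update (bump 0 x 1) x 0) := by
      rintro _ ⟨p, rfl⟩
      have hm1 : bump 0 (ι p) 1 ∈ Helly := bump_mem h0 _ ⟨zero_le_one, le_rfl⟩
      have hl : ∀ᶠ w in 𝓝[<] (ι p), bump 0 (ι p) 1 w = 0 := by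
        filter_upwards [self_mem_nhdsWithin] with w hw
        rw [bump_eq_of_lt _ _ hw]; rfl
      have hm2 : update (bump 0 (ι p) 1) (ι p) 0 ∈ Helly :=
        update_mem hm1 hl ⟨le_rfl, (hm1.2 _).1⟩
      by_contra hcon
      push Not at hcon
      have h1 : e ⟨Ψ _, mem_image_of_mem Ψ hm1⟩ = e ⟨Ψ _, mem_image_of_mem Ψ hm2⟩ := by
        apply Subtype.ext
        funext z
        have := hcon z
        simp only [hφdef, dif_pos hm1, dif_pos hm2] at this
        exact this
      have h2 := congrFun (congrArg Subtype.val (e.injective h1)) p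
      simp [hΨ, bump] at h2
    let _ : PseudoMetricSpace Y := TopologicalSpace.pseudoMetrizableSpacePseudoMetric Y
    obtain ⟨g, hg, B, hB, hB'⟩ := core (Y := Y) hφ hL hsep
    obtain ⟨b, hb, hcont⟩ := hT _ (e ⟨Ψ g, mem_image_of_mem Ψ hg⟩).2 B hB
    refine hB' b hb ?_
    have : (fun z => φ z g) = (e ⟨Ψ g, mem_image_of_mem Ψ hg⟩).1 := by
      funext z
      simp only [hφdef, dif_pos hg]
    rw [this]
    exact hcont

end Pool.Agent.Results.MP_6d476a_gt.NoEmbedding
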